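import Pool.Agent.W989.KS.Main
import Pool.Agent.H545R2.KS.Sat

/-!
# Joseph's question is equivalent to `P ≠ NP`

The sets `K[log n, n ^ log n] ∩ SAT` and the complement of `SAT` are polynomially inseparable if
and only if `P ≠ NP`.

Idea of the proof.  Let `S` be a set in `P` with `K[g, G] ∩ A ⊆ S ⊆ A`, where `A` is an
`NP`-complete paddable set.  Whether some member `x` of `A` with `2^(κ k) ≤ |x| < 2^(κ (k + 1))` is
rejected by `S` is an `NP` question about a unary input, and so is the question whether a string is
a prefix of the code of such an error together with a certificate.  Ask these questions (padded to a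
polynomial length) to `S` itself, bit by bit: every question is determined by `k` and the number of
the bit, hence it is in `K[g, G]`, hence `S` answers correctly, hence the search finds an error if
there is one.  But then this error is itself determined by `k` and found in time polynomial in its
length, so it is in `K[g, G]` and is not an error.  So `S` and `A` have the same long elements.
-/

set_option autoImplicit false

namespace Pool.Agent.Results.MP_359409_lc.InseparableIffPNeNP

open Pool.Agent.NPC Pool.Agent.W989.KS Filter

open Pool.Agent.H545R2.KS (SAT)

/-- The logarithm rounded up, as in the problem. -/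
def logg (n : ℕ) : ℕ := Nat.clog 2 n

/-- The class `K = K[log n, n ^ log n]` for the universal machine `U`. -/
def KK (U : Machine) : Set (List Bool) := KC U logg (fun n => n ^ logg n)

theorem logLike_logg : LogLike logg := by
  refine ⟨1, Eventually.of_forall fun n => ?_⟩
  rw [one_mul]
  exact Nat.log_le_clog 2 n

theorem superpoly_logg : Superpoly (fun n => n ^ logg n) := by
  intro c
  filter_upwards [eventually_ge_atTop (2 ^ c)] with n hn
  have h0 : n ≠ 0 := by
    have : 0 < 2 ^ c := by positivity
    omega
  have h1 : c ≤ Nat.log 2 n := Nat.le_log_of_pow_le (by norm_num) hn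
  exact Nat.pow_le_pow_right (Nat.pos_of_ne_zero h0) (h1.trans (Nat.log_le_clog 2 n))

theorem general {U : Machine} (hU : Universal U) {A : Set (List Bool)} (hA : NPComplete A)
    (hP : Paddable A) {g G : ℕ → ℕ} (hg : LogLike g) (hG : Superpoly G) :
    Separable (KC U g G ∩ A) Aᶜ ↔ PeqNP := by
  constructor
  · rintro ⟨S, hS, h1, h2⟩
    have hSA : S ⊆ A := by
      intro x hx
      by_contra hxA
      have : x ∈ S ∩ Aᶜ := ⟨hx, hxA⟩
      rw [h2] at this
      exact this
    exact NPHard.collapse hA.2 (main hU hA.1 hA.2 hP hg hG hS h1 hSA)
  · intro h
    exact ⟨A, h A hA.1, Set.inter_subset_right, Set.inter_compl_self A⟩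

/-- **Theorem.** There is a universal machine, and for every universal machine the sets
`K[log n, n ^ log n] ∩ SAT` and the complement of `SAT` are polynomially inseparable if and only if
`P ≠ NP`. The same holds for every paddable `NP`-complete set `A` instead of `SAT` and for every
class `K[g, G]` with `g` at least a constant fraction of the logarithm and `G` superpolynomial. -/
theorem result :
    (∃ U : Machine, Universal U) ∧
    ∀ U : Machine, Universal U →
      (¬ Separable (KK U ∩ SAT) SATᶜ ↔ ¬ PeqNP) ∧
      ∀ A : Set (List Bool), NPComplete A → Paddable A →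
        ∀ g G : ℕ → ℕ, LogLike g → Superpoly G →
          (¬ Separable (KC U g G ∩ A) Aᶜ ↔ ¬ PeqNP) := by
  refine ⟨exists_universal, fun U hU => ⟨?_, fun A hA hP g G hg hG =>
    not_congr (general hU hA hP hg hG)⟩⟩
  exact not_congr (general hU Pool.Agent.NPC.H545KS.sat_complete
    Pool.Agent.NPC.H545KS.sat_paddable logLike_logg superpoly_logg)

end Pool.Agent.Results.MP_359409_lc.InseparableIffPNeNP
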